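import Pool.Agent.Work.MP_496e47_co.Proof

namespace Pool.Agent.Results.MP_496e47_co.Counterexample

open Pool.Agent.Work.MP_496e47_co

/-- The straight shape `(3,3)` has exactly one cyclic descent map, while its set of descent
numbers is `{1,2,3}`, which is not of the form `{k-1,k}`. -/
theorem result :
    ∃ S : SkewShape, S.outer.rowLens = [3, 3] ∧ S.inner = ⊥ ∧
      (∃! cDes : SYT S → Set ℕ, IsCyclicDescentMap S cDes) ∧
      descentNumbers S = {1, 2, 3} ∧
      ¬ ∃ k : ℤ, (fun d : ℕ => (d : ℤ)) '' descentNumbers S = {k - 1, k} := by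
  refine ⟨S33, rowLens_yd33, rfl, ⟨c0, c0_isCDes, unique_c⟩, descentNumbers_S33, ?_⟩
  rintro ⟨k, hk⟩
  rw [descentNumbers_S33] at hk
  have h1 : (1 : ℤ) ∈ ({k - 1, k} : Set ℤ) := by rw [← hk]; exact ⟨1, by simp, rfl⟩
  have h3 : (3 : ℤ) ∈ ({k - 1, k} : Set ℤ) := by rw [← hk]; exact ⟨3, by simp, rfl⟩
  simp only [Set.mem_insert_iff, Set.mem_singleton_iff] at h1 h3
  omega

end Pool.Agent.Results.MP_496e47_co.Counterexample
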